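import Mathlib
import Pool.Agent.H759R2.Kad.Props5

/-!
# The Dixmier property of factors with a tracial state (task F6 of helper759, by helper226)
-/

open scoped ComplexOrder InnerProductSpace ComplexConjugate
open Finset

noncomputable section

namespace H759R2.Kad

universe u v

namespace F06

section abs

variable {A : Type u} [CStarAlgebra A] [PartialOrder A] [StarOrderedRing A]

theorem smul_mono {x y : A} {r : ℝ} (hr : 0 ≤ r) (h : x ≤ y) : r • x ≤ r • y := by
  rw [← sub_nonneg, ← smul_sub]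
  have h1 : 0 ≤ y - x := sub_nonneg.2 h
  rw [CStarAlgebra.nonneg_iff_eq_star_mul_self] at h1
  obtain ⟨s, hs⟩ := h1
  rw [hs]
  have : r • (star s * s) = star (Real.sqrt r • s) * (Real.sqrt r • s) := by
    rw [star_smul, star_trivial (Real.sqrt r), smul_mul_smul_comm, Real.mul_self_sqrt hr]
  rw [this]
  exact star_mul_self_nonneg _

/-- one step of averaging -/
theorem step0 {h p v : A} {δ : ℝ} (hδ : 0 ≤ δ) (hp : star p = p) (hpp : p * p = p)
    (h1 : -(δ • (1 : A)) ≤ h) (h2 : h ≤ δ • p) (hv : star v * v = p) (hv2 : (1 - p) * v = v) :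
    ∃ u : A, star u = u ∧ u * u = 1 ∧ -(δ • (1 : A)) ≤ (2 : ℝ)⁻¹ • (h + u * h * u) ∧
      (2 : ℝ)⁻¹ • (h + u * h * u) ≤ (δ / 2) • (1 : A) := by
  have hpv : p * v = 0 := by
    rw [sub_mul, one_mul, sub_eq_self] at hv2
    exact hv2
  have hvp : v * p = v := by
    rw [← sub_eq_zero, ← CStarRing.star_mul_self_eq_zero_iff, star_sub, star_mul, hp]
    have e1 : (p * star v - star v) * (v * p - v) =
        p * (star v * v) * p - p * (star v * v) - (star v * v) * p + star v * v := by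
      noncomm_ring
    rw [e1, hv, hpp, hpp]
    abel
  have hsp : star v * p = 0 := by
    have := congrArg star hpv
    rwa [star_mul, hp, star_zero] at this
  have hps : p * star v = star v := by
    have := congrArg star hvp
    rwa [star_mul, hp] at this
  have hvv : v * v = 0 := by
    calc v * v = (v * p) * v := by rw [hvp]
      _ = v * (p * v) := mul_assoc _ _ _
      _ = 0 := by rw [hpv, mul_zero]
  have hss : star v * star v = 0 := by
    have := congrArg star hvv
    rwa [star_mul, star_zero] at this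
  set q := v * star v with hq
  have hsq : star q = q := by rw [hq, star_mul, star_star]
  have hqq : q * q = q := by
    calc q * q = v * (star v * v) * star v := by rw [hq]; noncomm_ring
      _ = q := by rw [hv, hvp]
  have hpq : p * q = 0 := by rw [hq, ← mul_assoc, hpv, zero_mul]
  have hqp : q * p = 0 := by rw [hq, mul_assoc, hsp, mul_zero]
  have hvq : v * q = 0 := by rw [hq, ← mul_assoc, hvv, zero_mul]
  have hqv : q * v = v := by rw [hq, mul_assoc, hv, hvp]
  have hsq' : star v * q = star v := by rw [hq, ← mul_assoc, hv, hps]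
  have hqs : q * star v = 0 := by rw [hq, mul_assoc, hss, mul_zero]
  set r := 1 - p - q with hr
  have hrs : star r = r := by rw [hr, star_sub, star_sub, star_one, hp, hsq]
  have hrr : r * r = r := by
    have : r * r = 1 - p - q - p + p * p + p * q - q + q * p + q * q := by
      rw [hr]; noncomm_ring
    rw [this, hpp, hpq, hqp, hqq, hr]
    abel
  have hrv : r * v = 0 := by
    have : r * v = v - p * v - q * v := by rw [hr]; noncomm_ring
    rw [this, hpv, hqv]; abel
  have hvr : v * r = 0 := by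
    have : v * r = v - v * p - v * q := by rw [hr]; noncomm_ring
    rw [this, hvp, hvq]; abel
  have hrsv : r * star v = 0 := by
    have : r * star v = star v - p * star v - q * star v := by rw [hr]; noncomm_ring
    rw [this, hps, hqs]; abel
  have hsvr : star v * r = 0 := by
    have : star v * r = star v - star v * p - star v * q := by rw [hr]; noncomm_ring
    rw [this, hsp, hsq']; abel
  have hrp : r * p = 0 := by
    have : r * p = p - p * p - q * p := by rw [hr]; noncomm_ring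
    rw [this, hpp, hqp]; abel
  set u := v + star v + r with hu
  have hsu : star u = u := by
    rw [hu, star_add, star_add, star_star, hrs]
    abel
  have huu : u * u = 1 := by
    have : u * u = v * v + v * star v + v * r + star v * v + star v * star v + star v * r +
        r * v + r * star v + r * r := by rw [hu]; noncomm_ring
    rw [this, hvv, hvr, hv, hss, hsvr, hrv, hrsv, hrr, ← hq, hr]
    abel
  have hupu : u * p * u = q := by
    have e1 : u * p = v * p + star v * p + r * p := by rw [hu]; noncomm_ring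
    rw [e1, hvp, hsp, hrp, add_zero, add_zero]
    have e2 : v * u = v * v + v * star v + v * r := by rw [hu]; noncomm_ring
    rw [e2, hvv, hvr, ← hq]
    abel
  have hr0 : 0 ≤ r := by
    have : r = star r * r := by rw [hrs, hrr]
    rw [this]
    exact star_mul_self_nonneg _
  have hconj : ∀ x y : A, x ≤ y → u * x * u ≤ u * y * u := by
    intro x y hxy
    have := star_left_conjugate_le_conjugate hxy u
    rwa [hsu] at this
  have hu2 : u * h * u ≤ δ • q := by
    refine (hconj _ _ h2).trans_eq ?_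
    rw [mul_smul_comm, smul_mul_assoc, hupu]
  have hu1 : -(δ • (1 : A)) ≤ u * h * u := by
    refine le_trans (le_of_eq ?_) (hconj _ _ h1)
    rw [mul_neg, neg_mul, mul_smul_comm, smul_mul_assoc, mul_one, huu]
  refine ⟨u, hsu, huu, ?_, ?_⟩
  · have e : -(δ • (1 : A)) = (2 : ℝ)⁻¹ • (-(δ • (1 : A)) + -(δ • (1 : A))) := by
      rw [← two_smul ℝ (-(δ • (1 : A))), smul_smul]
      norm_num
    rw [e]
    exact smul_mono (by norm_num) (add_le_add h1 hu1)
  · calc (2 : ℝ)⁻¹ • (h + u * h * u) ≤ (2 : ℝ)⁻¹ • (δ • p + δ • q) :=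
          smul_mono (by norm_num) (add_le_add h2 hu2)
      _ = (δ / 2) • (p + q) := by
          rw [← smul_add, smul_smul]
          congr 1
          ring
      _ ≤ (δ / 2) • (1 : A) := by
          apply smul_mono (by linarith)
          rw [← sub_nonneg]
          have : 1 - (p + q) = r := by rw [hr]; abel
          rw [this]
          exact hr0

theorem step1 (HR : ∀ b : A, ∃ p : A, star p = p ∧ p * p = p ∧ p * b = b ∧
      ∀ x : A, x * b = 0 → x * p = 0)
    (HC : ∀ p q : A, star p = p → p * p = p → star q = q → q * q = q →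
      ∃ v, (star v * v = p ∧ q * v = v) ∨ (v * star v = q ∧ v * p = v))
    {h : A} {δ : ℝ} (hδ : 0 ≤ δ) (hh : IsSelfAdjoint h) (h1 : -(δ • (1 : A)) ≤ h)
    (h2 : h ≤ δ • (1 : A)) :
    ∃ u : A, star u = u ∧ u * u = 1 ∧ ∃ c : ℝ,
      -((3 / 4 * δ) • (1 : A)) ≤ (2 : ℝ)⁻¹ • (h + u * h * u) - c • (1 : A) ∧
      (2 : ℝ)⁻¹ • (h + u * h * u) - c • (1 : A) ≤ (3 / 4 * δ) • (1 : A) := by
  obtain ⟨p, hp, hpp, hpb, hx⟩ := HR h⁺
  have hb0 : 0 ≤ h⁺ := CFC.posPart_nonneg h
  have hn0 : 0 ≤ h⁻ := CFC.negPart_nonneg h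
  have hbs : star h⁺ = h⁺ := (IsSelfAdjoint.of_nonneg hb0)
  have hns : star h⁻ = h⁻ := (IsSelfAdjoint.of_nonneg hn0)
  have hbp : h⁺ * p = h⁺ := by
    have := congrArg star hpb
    rwa [star_mul, hp, hbs] at this
  have hnp : h⁻ * p = 0 := hx _ (CFC.negPart_mul_posPart h)
  have hpn : p * h⁻ = 0 := by
    have := congrArg star hnp
    rwa [star_mul, hp, hns, star_zero] at this
  have hdec : h⁺ - h⁻ = h := CFC.posPart_sub_negPart h hh
  have hA : h ≤ δ • p := by
    have e1 : p * h * p = h⁺ := by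
      calc p * h * p = p * (h⁺ - h⁻) * p := by rw [hdec]
        _ = p * h⁺ * p - p * h⁻ * p := by noncomm_ring
        _ = h⁺ := by rw [hpb, hbp, hpn, zero_mul, sub_zero]
    have e2 := star_left_conjugate_le_conjugate h2 p
    rw [hp, e1, mul_smul_comm, smul_mul_assoc, mul_one, hpp] at e2
    refine le_trans ?_ e2
    calc h = h⁺ - h⁻ := hdec.symm
      _ ≤ h⁺ := sub_le_self _ hn0
  have hB : -h ≤ δ • (1 - p) := by
    have e1 : (1 - p) * (-h) * (1 - p) = h⁻ := by
      calc (1 - p) * (-h) * (1 - p) = (1 - p) * (-(h⁺ - h⁻)) * (1 - p) := by rw [hdec]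
        _ = -(h⁺ - p * h⁺ - (h⁺ * p) + p * (h⁺ * p)) +
            (h⁻ - p * h⁻ - (h⁻ * p) + p * (h⁻ * p)) := by noncomm_ring
        _ = h⁻ := by rw [hbp, hpb, hnp, hpn, mul_zero]; abel
    have e0 : -h ≤ δ • (1 : A) := by
      have := neg_le_neg h1
      rwa [neg_neg] at this
    have e2 := star_left_conjugate_le_conjugate e0 (1 - p)
    have e3 : (1 - p) * (1 - p) = 1 - p := by
      have : (1 - p) * (1 - p) = 1 - p - p + p * p := by noncomm_ring
      rw [this, hpp]; abel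
    rw [star_sub, star_one, hp, e1, mul_smul_comm, smul_mul_assoc, mul_one, e3] at e2
    refine le_trans ?_ e2
    calc -h = h⁻ - h⁺ := by rw [← neg_sub h⁺ h⁻, hdec]
      _ ≤ h⁻ := sub_le_self _ hb0
  have hq : star (1 - p) = 1 - p := by rw [star_sub, star_one, hp]
  have hqq : (1 - p) * (1 - p) = 1 - p := by
    have : (1 - p) * (1 - p) = 1 - p - p + p * p := by noncomm_ring
    rw [this, hpp]; abel
  obtain ⟨v, ⟨hv1, hv2⟩ | ⟨hv1, hv2⟩⟩ := HC p (1 - p) hp hpp hq hqq
  · obtain ⟨u, hu1, hu2, hu3, hu4⟩ := step0 hδ hp hpp h1 hA hv1 hv2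
    refine ⟨u, hu1, hu2, -(δ / 4), ?_, ?_⟩
    · calc -((3 / 4 * δ) • (1 : A)) = -(δ • (1 : A)) - (-(δ / 4)) • (1 : A) := by
            rw [← neg_smul, ← neg_smul, ← sub_smul]; congr 1; ring
        _ ≤ _ := sub_le_sub_right hu3 _
    · calc _ ≤ (δ / 2) • (1 : A) - (-(δ / 4)) • (1 : A) := sub_le_sub_right hu4 _
        _ = _ := by rw [← sub_smul]; congr 1; ring
  · obtain ⟨u, hu1, hu2, hu3, hu4⟩ := step0 (h := -h) (p := 1 - p) (v := star v) hδ hq hqq
      (neg_le_neg h2) hB (by rw [star_star, hv1]) (by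
        rw [sub_sub_cancel]
        have := congrArg star hv2
        rwa [star_mul, hp] at this)
    have e : (2 : ℝ)⁻¹ • (-h + u * -h * u) = -((2 : ℝ)⁻¹ • (h + u * h * u)) := by
      rw [← smul_neg]
      congr 1
      noncomm_ring
    rw [e] at hu3 hu4
    refine ⟨u, hu1, hu2, δ / 4, ?_, ?_⟩
    · have h5 := neg_le_neg hu4
      rw [neg_neg] at h5
      calc -((3 / 4 * δ) • (1 : A)) = -((δ / 2) • (1 : A)) - (δ / 4) • (1 : A) := by
            rw [← neg_smul, ← neg_smul, ← sub_smul]; congr 1; ring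
        _ ≤ _ := sub_le_sub_right h5 _
    · have h5 := neg_le_neg hu3
      rw [neg_neg, neg_neg] at h5
      calc _ ≤ δ • (1 : A) - (δ / 4) • (1 : A) := sub_le_sub_right h5 _
        _ = _ := by rw [← sub_smul]; congr 1; ring

/-- `x` is an average of unitary conjugates of `a` -/
def Av (a x : A) : Prop :=
  ∃ (ι : Type) (_ : Fintype ι) (_ : Nonempty ι) (g : ι → unitary A),
    x = (Fintype.card ι : ℂ)⁻¹ • ∑ i, (g i : A) * a * star (g i : A)

theorem Av.refl (a : A) : Av a a :=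
  ⟨Unit, inferInstance, inferInstance, fun _ => 1, by simp⟩

theorem Av.step {a x u : A} (h : Av a x) (hu : star u = u) (huu : u * u = 1) :
    Av a ((2 : ℝ)⁻¹ • (x + u * x * u)) := by
  obtain ⟨ι, _, _, g, hg⟩ := h
  have huM : u ∈ unitary A := by
    rw [Unitary.mem_iff, hu]
    exact ⟨huu, huu⟩
  refine ⟨ι ⊕ ι, inferInstance, inferInstance, Sum.elim g (fun i => ⟨u, huM⟩ * g i), ?_⟩
  rw [Fintype.sum_sum_type, Fintype.card_sum]
  simp only [Sum.elim_inl, Sum.elim_inr]
  have e1 : ∑ i, ((((⟨u, huM⟩ : unitary A) * g i : unitary A) : A) * a *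
      star (((⟨u, huM⟩ : unitary A) * g i : unitary A) : A)) =
      u * (∑ i, (g i : A) * a * star (g i : A)) * u := by
    rw [Finset.mul_sum, Finset.sum_mul]
    apply Finset.sum_congr rfl
    intro i _
    rw [Submonoid.coe_mul, star_mul, hu]
    noncomm_ring
  rw [e1, hg]
  set S := ∑ i, (g i : A) * a * star (g i : A) with hS
  rw [mul_smul_comm, smul_mul_assoc, ← smul_add]
  have hc : (Fintype.card ι : ℂ) ≠ 0 := by
    have : 0 < Fintype.card ι := Fintype.card_pos
    exact_mod_cast this.ne'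
  have e2 : (2 : ℝ)⁻¹ • ((Fintype.card ι : ℂ)⁻¹ • (S + u * S * u)) =
      (2 : ℂ)⁻¹ • ((Fintype.card ι : ℂ)⁻¹ • (S + u * S * u)) := by
    have : ((2 : ℂ)⁻¹) = (((2 : ℝ)⁻¹ : ℝ) : ℂ) := by norm_num
    rw [this, Complex.coe_smul]
  rw [e2, smul_smul]
  congr 1
  push_cast
  field_simp
  norm_num

theorem Av.trace {τ : A →ₗ[ℂ] ℂ} (hτ : IsTracialState τ) {a x : A} (h : Av a x) : τ x = τ a := by
  obtain ⟨ι, _, _, g, hg⟩ := h
  have hc : (Fintype.card ι : ℂ) ≠ 0 := by
    have : 0 < Fintype.card ι := Fintype.card_pos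
    exact_mod_cast this.ne'
  have h1 : ∀ i, τ ((g i : A) * a * star (g i : A)) = τ a := by
    intro i
    rw [hτ.comm, ← mul_assoc, Unitary.coe_star_mul_self, one_mul]
  rw [hg, map_smul, map_sum]
  simp only [h1, Finset.sum_const, Finset.card_univ, nsmul_eq_mul, smul_eq_mul]
  field_simp

theorem iter (HR : ∀ b : A, ∃ p : A, star p = p ∧ p * p = p ∧ p * b = b ∧
      ∀ x : A, x * b = 0 → x * p = 0)
    (HC : ∀ p q : A, star p = p → p * p = p → star q = q → q * q = q →
      ∃ v, (star v * v = p ∧ q * v = v) ∨ (v * star v = q ∧ v * p = v))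
    {a : A} (ha : IsSelfAdjoint a) (k : ℕ) :
    ∃ (x : A) (c : ℝ), Av a x ∧ IsSelfAdjoint x ∧
      -(((3 / 4) ^ k * ‖a‖) • (1 : A)) ≤ x - c • (1 : A) ∧
      x - c • (1 : A) ≤ ((3 / 4) ^ k * ‖a‖) • (1 : A) := by
  induction k with
  | zero =>
    refine ⟨a, 0, Av.refl a, ha, ?_, ?_⟩
    · rw [pow_zero, one_mul, zero_smul, sub_zero, ← Algebra.algebraMap_eq_smul_one]
      exact ha.neg_algebraMap_norm_le_self
    · rw [pow_zero, one_mul, zero_smul, sub_zero, ← Algebra.algebraMap_eq_smul_one]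
      exact ha.le_algebraMap_norm_self
  | succ k ih =>
    obtain ⟨x, c, hx, hxs, h1, h2⟩ := ih
    have hs : IsSelfAdjoint (x - c • (1 : A)) := by
      apply hxs.sub
      exact (IsSelfAdjoint.all c).smul (IsSelfAdjoint.one A)
    obtain ⟨u, hu1, hu2, c', h3, h4⟩ := step1 HR HC (by positivity) hs h1 h2
    have e : (2 : ℝ)⁻¹ • (x - c • (1 : A) + u * (x - c • (1 : A)) * u) - c' • (1 : A) =
        (2 : ℝ)⁻¹ • (x + u * x * u) - (c + c') • (1 : A) := by
      have e1 : u * (x - c • (1 : A)) * u = u * x * u - c • (1 : A) := by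
        rw [mul_sub, sub_mul, mul_smul_comm, smul_mul_assoc, mul_one, hu2]
      have e2 : x - c • (1 : A) + (u * x * u - c • (1 : A)) =
          (x + u * x * u) - (2 * c) • (1 : A) := by
        rw [two_mul, add_smul]; abel
      rw [e1, e2, smul_sub, smul_smul, add_smul]
      have e3 : (2 : ℝ)⁻¹ * (2 * c) = c := by ring
      rw [e3]; abel
    rw [e] at h3 h4
    refine ⟨(2 : ℝ)⁻¹ • (x + u * x * u), c + c', hx.step hu1 hu2, ?_, ?_, ?_⟩
    · apply IsSelfAdjoint.smul (IsSelfAdjoint.all _)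
      apply hxs.add
      have := hxs.conjugate u
      rwa [hu1] at this
    · have e5 : (3 / 4 : ℝ) ^ (k + 1) * ‖a‖ = 3 / 4 * ((3 / 4) ^ k * ‖a‖) := by ring
      rw [e5]; exact h3
    · have e5 : (3 / 4 : ℝ) ^ (k + 1) * ‖a‖ = 3 / 4 * ((3 / 4) ^ k * ‖a‖) := by ring
      rw [e5]; exact h4

theorem tau_nonneg {τ : A →ₗ[ℂ] ℂ} (hτ : IsTracialState τ) {a : A} (h : 0 ≤ a) : 0 ≤ τ a := by
  rw [CStarAlgebra.nonneg_iff_eq_star_mul_self] at h
  obtain ⟨s, rfl⟩ := h
  exact hτ.pos s

theorem tau_bound {τ : A →ₗ[ℂ] ℂ} (hτ : IsTracialState τ) {y : A} {r : ℝ}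
    (h1 : -(r • (1 : A)) ≤ y) (h2 : y ≤ r • (1 : A)) : ‖τ y‖ ≤ r := by
  have hr : τ (r • (1 : A)) = (r : ℂ) := by
    have : r • (1 : A) = (r : ℂ) • (1 : A) := (Complex.coe_smul r (1 : A)).symm
    rw [this, map_smul, hτ.one, smul_eq_mul, mul_one]
  have h3 := tau_nonneg hτ (sub_nonneg.2 h2)
  have h4 := tau_nonneg hτ (sub_nonneg.2 h1)
  rw [map_sub, hr] at h3
  rw [map_sub, map_neg, hr] at h4
  rw [Complex.nonneg_iff] at h3 h4
  simp only [Complex.sub_re, Complex.ofReal_re, Complex.sub_im, Complex.ofReal_im,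
    Complex.neg_re, Complex.neg_im] at h3 h4
  have him : (τ y).im = 0 := by linarith [h3.2]
  have : τ y = (((τ y).re : ℝ) : ℂ) := by
    apply Complex.ext <;> simp [him]
  rw [this, Complex.norm_real, Real.norm_eq_abs, abs_le]
  constructor <;> linarith [h3.1, h4.1]

theorem main (HR : ∀ b : A, ∃ p : A, star p = p ∧ p * p = p ∧ p * b = b ∧
      ∀ x : A, x * b = 0 → x * p = 0)
    (HC : ∀ p q : A, star p = p → p * p = p → star q = q → q * q = q →
      ∃ v, (star v * v = p ∧ q * v = v) ∨ (v * star v = q ∧ v * p = v))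
    {τ : A →ₗ[ℂ] ℂ} (hτ : IsTracialState τ) : HasDixmier τ := by
  intro a ha ε hε
  haveI : Nontrivial A := by
    refine ⟨1, 0, fun h => ?_⟩
    have := hτ.one
    rw [h, map_zero] at this
    exact zero_ne_one this
  obtain ⟨k, hk⟩ : ∃ k : ℕ, (3 / 4 : ℝ) ^ k * ‖a‖ ≤ ε / 2 := by
    have h1 : Filter.Tendsto (fun k : ℕ => (3 / 4 : ℝ) ^ k * ‖a‖) Filter.atTop (nhds (0 * ‖a‖)) :=
      (tendsto_pow_atTop_nhds_zero_of_lt_one (by norm_num) (by norm_num)).mul_const _
    rw [zero_mul] at h1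
    exact (h1.eventually_le_const (by linarith : (0 : ℝ) < ε / 2)).exists
  obtain ⟨x, c, hx, hxs, h1, h2⟩ := iter HR HC ha k
  have hτx : τ (x - c • (1 : A)) = τ a - c := by
    rw [map_sub, hx.trace hτ]
    congr 1
    have : c • (1 : A) = (c : ℂ) • (1 : A) := (Complex.coe_smul c (1 : A)).symm
    rw [this, map_smul, hτ.one, smul_eq_mul, mul_one]
  have h3 := tau_bound hτ h1 h2
  rw [hτx] at h3
  have h4 : ‖x - c • (1 : A)‖ ≤ (3 / 4) ^ k * ‖a‖ := by
    have hs : IsSelfAdjoint (x - c • (1 : A)) :=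
      hxs.sub ((IsSelfAdjoint.all c).smul (IsSelfAdjoint.one A))
    rw [← Algebra.algebraMap_eq_smul_one, ← map_neg] at h1
    rw [← Algebra.algebraMap_eq_smul_one ((3 / 4) ^ k * ‖a‖)] at h2
    rw [algebraMap_le_iff_le_spectrum hs] at h1
    rw [le_algebraMap_iff_spectrum_le hs] at h2
    rcases CStarAlgebra.norm_or_neg_norm_mem_spectrum hs with h6 | h6
    · exact h2 _ h6
    · have := h1 _ h6
      linarith
  have h5 : ‖x - algebraMap ℂ A (τ a)‖ ≤ ε := by
    have e : x - algebraMap ℂ A (τ a) = (x - c • (1 : A)) - algebraMap ℂ A (τ a - c) := by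
      rw [map_sub, Algebra.algebraMap_eq_smul_one (c : ℂ), Complex.coe_smul]
      abel
    rw [e]
    refine (norm_sub_le _ _).trans ?_
    rw [norm_algebraMap']
    linarith
  obtain ⟨ι, _, _, g, hg⟩ := hx
  obtain ⟨N, hN⟩ : ∃ N, Fintype.card ι = N + 1 :=
    ⟨Fintype.card ι - 1, by have : 0 < Fintype.card ι := Fintype.card_pos; omega⟩
  have eq : ι ≃ Fin (N + 1) := Fintype.equivFinOfCardEq hN
  refine ⟨N, fun i => g (eq.symm i), ?_⟩
  have e6 : ∑ i, (g (eq.symm i) : A) * a * star (g (eq.symm i) : A) =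
      ∑ i, (g i : A) * a * star (g i : A) :=
    Equiv.sum_comp eq.symm (fun i => (g i : A) * a * star (g i : A))
  rw [e6]
  have e7 : ((N : ℂ) + 1) = (Fintype.card ι : ℂ) := by rw [hN]; push_cast; rfl
  rw [e7, ← hg]
  exact h5

end abs

end F06

theorem prove5_dix (h1 : F_range.{u}) (h2 : F_comp.{u}) : F_dix.{u} := by
  intro H _ _ _ M τ hfac hτ
  letI := CStarAlgebra.spectralOrder M.toStarSubalgebra
  haveI := CStarAlgebra.spectralOrderedRing M.toStarSubalgebra
  refine F06.main ?_ ?_ hτ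
  · rintro ⟨b, hb⟩
    obtain ⟨p, hpM, ⟨hp1, hp2⟩, hp3, hp4⟩ := h1 H M b hb
    refine ⟨⟨p, hpM⟩, Subtype.ext hp1, Subtype.ext hp2, Subtype.ext hp3, ?_⟩
    rintro ⟨x, hx⟩ h
    exact Subtype.ext (hp4 x (congrArg Subtype.val h))
  · rintro ⟨p, hp⟩ ⟨q, hq⟩ hp1 hp2 hq1 hq2
    obtain ⟨v, hvM, ⟨hv1, hv2⟩ | ⟨hv1, hv2⟩⟩ := h2 H M hfac p hp q hq
      ⟨congrArg Subtype.val hp1, congrArg Subtype.val hp2⟩
      ⟨congrArg Subtype.val hq1, congrArg Subtype.val hq2⟩
    · exact ⟨⟨v, hvM⟩, Or.inl ⟨Subtype.ext hv1, Subtype.ext hv2⟩⟩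
    · exact ⟨⟨v, hvM⟩, Or.inr ⟨Subtype.ext hv1, Subtype.ext hv2⟩⟩

end H759R2.Kad
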